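import Pool.Agent.Q123.KB.Fin

/-!
# The square of the edge ideal of a cone detects the field-dependence of the Betti numbers

Let `G` be a graph on `n` vertices with edge ideal `I(G)` in `K[x_1,…,x_n]` and let `J` be the edge
ideal of the cone over `G`. If the Betti numbers `β_{i,j}` of `I(G)` depend on the field, then the Betti
numbers `β_{i,j}` of `J²` depend on the field. The proof compares the upper Koszul complex of `J²` at the
multidegree `(1_W, 2)` with the one of `I(G)` at `1_W`.
-/

set_option autoImplicit false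

open Pool.Agent.Q123.KB

namespace Pool.Agent.Results.MP_01886a_al.ConeSquare

/-- The Betti numbers `β_{i,j}` of the ideals `I K` (one for each field `K`) depend on the field. -/
def DependsOnField {m : ℕ} (I : (K : Type) → [Field K] → Ideal (MvPolynomial (Fin m) K)) : Prop :=
  ∃ (K L : Type) (_ : Field K) (_ : Field L) (i j : ℕ), degBetti (I K) i j ≠ degBetti (I L) i j

/-- Let `G` be a graph on `n` vertices and `J` the edge ideal of the cone over `G`.
(1) For every field `K` for which some `β_{i,j}` of `I(G)` over `K` differs from the one over `ℚ`, some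
`β_{i,j}` of `J²` over `K` differs from the one over `ℚ`.
(2) If the Betti numbers of `I(G)` depend on the field, then so do those of `J²`. -/
theorem result : ∀ (n : ℕ) (G : SimpleGraph (Fin n)),
    (∀ (K : Type) [Field K],
      (∃ i j : ℕ, degBetti (edgeIdeal K G) i j ≠ degBetti (edgeIdeal ℚ G) i j) →
      ∃ i j : ℕ, degBetti (edgeIdeal K (coneGraph G) ^ 2) i j ≠
        degBetti (edgeIdeal ℚ (coneGraph G) ^ 2) i j) ∧
    (DependsOnField (fun K _ => edgeIdeal K G) →
      DependsOnField (fun K _ => edgeIdeal K (coneGraph G) ^ 2)) := by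
  intro n G
  have h1 : ∀ (K : Type) [Field K],
      (∃ i j : ℕ, degBetti (edgeIdeal K G) i j ≠ degBetti (edgeIdeal ℚ G) i j) →
      ∃ i j : ℕ, degBetti (edgeIdeal K (coneGraph G) ^ 2) i j ≠
        degBetti (edgeIdeal ℚ (coneGraph G) ^ 2) i j := by
    rintro K _ ⟨i, j, h⟩
    by_contra h0
    push Not at h0
    exact h (main G h0 i j)
  refine ⟨h1, ?_⟩
  rintro ⟨K, L, _, _, i, j, h⟩
  by_cases hK : degBetti (edgeIdeal K G) i j = degBetti (edgeIdeal ℚ G) i j
  · obtain ⟨i', j', h'⟩ := h1 L ⟨i, j, fun h2 => h (hK.trans h2.symm)⟩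
    exact ⟨L, ℚ, _, _, i', j', h'⟩
  · obtain ⟨i', j', h'⟩ := h1 K ⟨i, j, hK⟩
    exact ⟨K, ℚ, _, _, i', j', h'⟩

end Pool.Agent.Results.MP_01886a_al.ConeSquare
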